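import Pool.Agent.FBC61.TwistQ
import Pool.Agent.FBC61.NoThinIrr

/-! # Free-by-cyclic groups acting on fibred Cayley graphs of a fully irreducible mapping torus

`X` is the Cayley graph of `G = F_n ⋊_φ ℤ` for a basis of `F_n` and any finite nonempty set `Q` of
elements of height one. If `φ` is fully irreducible then every free-by-cyclic group that acts
properly and cocompactly on `X` and preserves the two kinds of edges is commensurable with `G`: a
subgroup of finite index acts by left multiplications. Let `L` be the group of the automorphisms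
of `X` that preserve the two kinds of edges and the height, and `K` the stabiliser of the vertex
`1` in `L`. The stabiliser of `t^j` in `L` has finite orbits on the tree of height zero, so it is
the stabiliser of a vertex or of an edge of this tree; by the pigeonhole principle there is
`b ∈ G` of positive height that normalises `K`. Then `L` commutes with the right multiplication by
`b`, and the restriction of `L` to the fibre acts by tree automorphisms on all levels for the
twisted power `x ↦ b x b⁻¹` of `φ`, which is again irreducible. So `K` is finite. -/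

namespace Pool.Agent.Results.MP_5879ca_al.FibredCayleyGraphs

open Pool.Agent.FBC61

theorem result {n m : ℕ} (hn : 2 ≤ n) (φ : MulAut (Fr n)) (ψ : MulAut (Fr m))
    (hφ : FullyIrreducible φ) (Q : Set (MT φ)) (hfin : Q.Finite) (hne : Q.Nonempty)
    (hQ : ∀ q ∈ Q, q.right = Multiplicative.ofAdd 1)
    (a : MT ψ →* Equiv.Perm (MT φ)) (ha : GeometricActionQ φ Q a) :
    VirtuallyLeft φ a ∧ (Atoroidal φ → Atoroidal ψ) ∧
      (NoThinTorus (MT φ) → NoThinTorus (MT ψ) ∧ ¬ Reducible ψ) := by
  obtain ⟨hS, hT, hfix, D, hD, hcov⟩ := ha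
  have hQ' : ∀ q ∈ Q, ht q = 1 := fun q hq => by
    unfold ht; rw [hQ q hq]; rfl
  have hmem : ∀ h, a h ∈ AutQ φ Q := by
    intro h
    have hinv : ∀ x, a h⁻¹ (a h x) = x := by
      intro x
      rw [← Equiv.Perm.mul_apply, ← map_mul, inv_mul_cancel, map_one]; rfl
    refine ⟨fun x y => ⟨fun hxy => ?_, hS h x y⟩, fun x y => ⟨fun hxy => ?_, hT h x y⟩⟩
    · have := hS h⁻¹ _ _ hxy
      rwa [hinv, hinv] at this
    · have := hT h⁻¹ _ _ hxy
      rwa [hinv, hinv] at this
  obtain ⟨H₀, ρ, h1, h2, h3⟩ := acts_general (AutQ φ Q) LG_memQ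
    (S0Q_finite hn hφ hQ' hne hfin) a hmem D hD hcov
  have hinj : Function.Injective ρ := by
    rw [injective_iff_map_eq_one]
    intro h hh
    have hfin : {k : MT ψ | a k 1 = 1}.Finite := hfix 1
    have hpow : ∀ k : ℕ, (h : MT ψ) ^ k ∈ {k : MT ψ | a k 1 = 1} := by
      intro k
      have e := h3 (h ^ k) 1
      rw [map_pow, hh, one_pow, one_mul] at e
      exact e
    have hni : ¬ Function.Injective (fun k : ℕ => (h : MT ψ) ^ k) := by
      intro hi
      exact Set.infinite_range_of_injective hi (hfin.subset (by rintro _ ⟨k, rfl⟩; exact hpow k))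
    obtain ⟨k, hk, hk'⟩ : ∃ k : ℕ, 0 < k ∧ (h : MT ψ) ^ k = 1 := by
      rw [← isOfFinOrder_iff_pow_eq_one]
      by_contra hno
      exact hni (injective_pow_iff_not_isOfFinOrder.2 hno)
    exact Subtype.ext (torsion_free hk hk')
  have hthin : NoThinTorus (MT φ) → NoThinTorus (MT ψ) :=
    noThin_transfer H₀ ρ h1 hinj (fun x k hk hx => torsion_free hk hx)
  exact ⟨⟨H₀, ρ, h1, hinj, h2, h3⟩, atoroidal_of_embedding H₀ ρ h1 hinj,
    fun h => ⟨hthin h, not_reducible_of_noThin (hthin h)⟩⟩

end Pool.Agent.Results.MP_5879ca_al.FibredCayleyGraphs
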